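import Pool.Agent.N205.WT.Stm

/-!
# WT/2: irreducibility
-/

set_option autoImplicit false

namespace Pool.Agent.N342.WT2

open Polynomial Pool.Agent.N205.WT

theorem ev_int (V : ℤ[X]) (t : ℤ) :
    (V.map (Int.castRingHom ℂ)).eval (t : ℂ) = ((V.eval t : ℤ) : ℂ) := by
  have h := Polynomial.eval_intCast_map (Int.castRingHom ℂ) V t
  simpa using h

theorem prod_id (M : Multiset ℂ) (hM : ∀ a ∈ M, ‖a‖ = Real.sqrt 2) :
    (M.map (fun a => -2 - a)).prod = (-1) ^ Multiset.card M * (M.map (fun a => 0 - a)).prod *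
      (starRingEnd ℂ) ((M.map (fun a => -1 - a)).prod) := by
  induction M using Multiset.induction_on with
  | empty => simp
  | cons a M ih =>
    have h1 := ih (fun b hb => hM b (Multiset.mem_cons_of_mem hb))
    have h2 : a * (starRingEnd ℂ) a = 2 := by
      rw [Complex.mul_conj, Complex.normSq_eq_norm_sq, hM a (Multiset.mem_cons_self a M),
        Real.sq_sqrt (by norm_num)]
      norm_num
    rw [Multiset.map_cons, Multiset.prod_cons, h1, Multiset.map_cons, Multiset.prod_cons,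
      Multiset.map_cons, Multiset.prod_cons, Multiset.card_cons, map_mul, map_sub, map_neg,
      map_one, pow_succ]
    have h3 : (-2 - a) = -1 * (0 - a) * (-1 - (starRingEnd ℂ) a) := by
      linear_combination h2
    rw [h3]
    ring

theorem val_rel (V : ℤ[X]) (hV : V.Monic) (hr : ∀ x : ℂ, aeval x V = 0 → ‖x‖ = Real.sqrt 2) :
    ∃ k : ℕ, V.eval (-2) = (-1) ^ k * V.eval 0 * V.eval (-1) := by
  set W := V.map (Int.castRingHom ℂ) with hW
  have hWm : W.Monic := hV.map _
  have hs : W.Splits := IsAlgClosed.splits W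
  have h1 : ∀ a ∈ W.roots, ‖a‖ = Real.sqrt 2 := by
    intro a ha
    apply hr
    have h2 := (Polynomial.mem_roots hWm.ne_zero).1 ha
    rw [Polynomial.IsRoot, hW, Polynomial.eval_map] at h2
    rw [Polynomial.aeval_def]
    exact h2
  have h2 := prod_id W.roots h1
  rw [← hs.eval_eq_prod_roots_of_monic hWm, ← hs.eval_eq_prod_roots_of_monic hWm,
    ← hs.eval_eq_prod_roots_of_monic hWm] at h2
  refine ⟨Multiset.card W.roots, ?_⟩
  have e1 : W.eval (-2) = ((V.eval (-2) : ℤ) : ℂ) := by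
    have := ev_int V (-2)
    push_cast at this
    exact this
  have e2 : W.eval 0 = ((V.eval 0 : ℤ) : ℂ) := by
    have := ev_int V 0
    push_cast at this
    exact this
  have e3 : W.eval (-1) = ((V.eval (-1) : ℤ) : ℂ) := by
    have := ev_int V (-1)
    push_cast at this
    exact this
  rw [e1, e2, e3, map_intCast] at h2
  exact_mod_cast h2

theorem three_dvd (V : ℤ[X]) (g : ℕ) (hV : V.Monic) (hn : 0 < V.natDegree)
    (hd : V.map (Int.castRingHom (ZMod 3)) ∣ (X ^ 2 - 1) ^ g)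
    (hr : ∀ x : ℂ, aeval x V = 0 → ‖x‖ = Real.sqrt 2) : (3 : ℤ) ∣ V.eval 1 := by
  have : Fact (Nat.Prime 3) := ⟨by norm_num⟩
  set v := V.map (Int.castRingHom (ZMod 3)) with hv
  have hvn : 0 < v.natDegree := by
    rw [hv, hV.natDegree_map]
    exact hn
  obtain ⟨p, hp, hpv⟩ := Polynomial.exists_irreducible_of_natDegree_pos hvn
  have h1 : p ∣ X ^ 2 - 1 := hp.prime.dvd_of_dvd_pow (hpv.trans hd)
  have h2 : (X ^ 2 - 1 : (ZMod 3)[X]) = (X - C 1) * (X - C (-1)) := by
    rw [C_neg, C_1]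
    ring
  rw [h2] at h1
  have h3 : ∀ c : ℤ, p ∣ X - C ((c : ℤ) : ZMod 3) → (3 : ℤ) ∣ V.eval c := by
    intro c hc
    have h4 : X - C ((c : ℤ) : ZMod 3) ∣ v :=
      (hp.dvd_symm (Polynomial.irreducible_X_sub_C _) hc).trans hpv
    rw [Polynomial.dvd_iff_isRoot, Polynomial.IsRoot] at h4
    have h5 := Polynomial.eval_intCast_map (Int.castRingHom (ZMod 3)) V c
    rw [← hv, h4] at h5
    have h6 : ((V.eval c : ℤ) : ZMod 3) = 0 := by
      simpa using h5.symm
    exact (ZMod.intCast_zmod_eq_zero_iff_dvd _ 3).1 h6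
  rcases hp.prime.dvd_or_dvd h1 with h4 | h4
  · exact h3 1 (by simpa using h4)
  · have h5 : (3 : ℤ) ∣ V.eval (-1) := h3 (-1) (by simpa using h4)
    obtain ⟨k, hk⟩ := val_rel V hV hr
    have h6 : (3 : ℤ) ∣ V.eval (-2) := by
      rw [hk]
      exact Dvd.dvd.mul_left h5 _
    have h7 : (1 : ℤ) - (-2) ∣ V.eval 1 - V.eval (-2) := Polynomial.sub_dvd_eval_sub 1 (-2) V
    have h8 : (3 : ℤ) ∣ V.eval 1 - V.eval (-2) := by
      have h9 : (1 : ℤ) - (-2) = 3 := by norm_num
      rwa [h9] at h7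
    have h9 := dvd_add h8 h6
    rwa [sub_add_cancel] at h9

theorem irr : S_IRR := by
  intro P g hg hP hdeg hmod h9 hr
  rw [← Polynomial.IsPrimitive.Int.irreducible_iff_irreducible_map_cast hP.isPrimitive]
  rw [hP.irreducible_iff_natDegree]
  refine ⟨?_, fun U V hU hV hUV => ?_⟩
  · rintro rfl
    rw [Polynomial.natDegree_one] at hdeg
    omega
  · by_contra hcon
    push Not at hcon
    have hmap : U.map (Int.castRingHom (ZMod 3)) * V.map (Int.castRingHom (ZMod 3)) =
        (X ^ 2 - 1) ^ g := by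
      rw [← Polynomial.map_mul, hUV, hmod]
    have h1 := three_dvd U g hU (Nat.pos_of_ne_zero hcon.1) (hmap ▸ dvd_mul_right _ _)
      (fun x hx => hr x (by rw [← hUV, map_mul, hx, zero_mul]))
    have h2 := three_dvd V g hV (Nat.pos_of_ne_zero hcon.2) (hmap ▸ dvd_mul_left _ _)
      (fun x hx => hr x (by rw [← hUV, map_mul, hx, mul_zero]))
    apply h9
    rw [← hUV, Polynomial.eval_mul]
    have h3 := mul_dvd_mul h1 h2
    norm_num at h3
    exact h3

end Pool.Agent.N342.WT2
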